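import Pool.Agent.H15.IX.TE

/-!
# Board idx_modules, row GRD: the grading of the toric stack of chains of curves
-/

set_option autoImplicit false

open Finset Pool.Agent.H15.IX

namespace Pool.Agent.H79.IX

variable {r n : ℕ}

/-- multiplicities of the vectors -/
noncomputable def Kp (s : Vr r n →₀ ℕ) (i : ℕ) : ℕ :=
  if h : i < r then ∑ v, s (Sum.inl (⟨i, h⟩, v))
  else if i = r then s (Sum.inr (Sum.inr ())) else 0

/-- multiplicities of the `ε` -/
noncomputable def nu (s : Vr r n →₀ ℕ) : ℕ → ℕ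
  | 0 => 0
  | i + 1 => if h : i < r then s (Sum.inr (Sum.inl ⟨i, h⟩)) else 0

lemma wt_apply (s : Vr r n →₀ ℕ) (j : Fin (r + 1)) :
    Finsupp.weight (dv r n) s j = ∑ v : Vr r n, (s v : ℤ) * dv r n v j := by
  rw [Finsupp.weight_apply, Finsupp.sum_fintype _ _ (by simp), Finset.sum_apply]
  simp

lemma ext0_wt (s : Vr r n →₀ ℕ) (j : ℕ) : ext0 (Finsupp.weight (dv r n) s) j =
    ∑ i ∈ range (r + 1), (Kp s i : ℤ) * ((i + 1 - j : ℕ) : ℤ) - (nu s j : ℤ) := by
  unfold ext0
  split_ifs with h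
  · rw [wt_apply, Fintype.sum_sum_type, Fintype.sum_sum_type, Fintype.sum_prod_type,
      sum_range_succ]
    have h1 : ∑ i ∈ range r, (Kp s i : ℤ) * ((i + 1 - j : ℕ) : ℤ) =
        ∑ i : Fin r, ∑ v, (s (Sum.inl (i, v)) : ℤ) * dv r n (Sum.inl (i, v)) ⟨j, h⟩ := by
      rw [← Fin.sum_univ_eq_sum_range (fun i => (Kp s i : ℤ) * ((i + 1 - j : ℕ) : ℤ))]
      apply sum_congr rfl
      intro i _
      have h2 : Kp s i = ∑ v, s (Sum.inl (i, v)) := dif_pos i.2
      rw [h2, Nat.cast_sum, sum_mul]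
      rfl
    have h2 : ∑ i : Fin r, (s (Sum.inr (Sum.inl i)) : ℤ) *
        dv r n (Sum.inr (Sum.inl i)) ⟨j, h⟩ = -(nu s j : ℤ) := by
      cases j with
      | zero =>
        rw [sum_eq_zero]
        · simp [nu]
        · intro i _
          simp [dv]
      | succ j =>
        have hj : j < r := by omega
        have h3 : nu s (j + 1) = s (Sum.inr (Sum.inl ⟨j, hj⟩)) := dif_pos hj
        rw [h3, sum_eq_single (⟨j, hj⟩ : Fin r)]
        · simp [dv]
        · intro i _ hi
          have h4 : ¬ j = (i : ℕ) := fun h => hi (Fin.ext h.symm)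
          simp [dv, h4]
        · simp
    have h3 : ∑ u : Unit, (s (Sum.inr (Sum.inr u)) : ℤ) * dv r n (Sum.inr (Sum.inr u)) ⟨j, h⟩ =
        (Kp s r : ℤ) * ((r + 1 - j : ℕ) : ℤ) := by
      have h4 : Kp s r = s (Sum.inr (Sum.inr ())) := by
        unfold Kp
        rw [dif_neg (lt_irrefl r), if_pos rfl]
      rw [h4]
      simp [dv]
    rw [h1, h2, h3]
    ring
  · have h1 : nu s j = 0 := by
      cases j with
      | zero => rfl
      | succ j => exact dif_neg (by omega)
    rw [h1, sum_eq_zero]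
    · simp
    · intro i hi
      rw [mem_range] at hi
      have h2 : i + 1 - j = 0 := by omega
      rw [h2]
      simp

/-- the second differences of the degree -/
lemma Lf_wt (s : Vr r n →₀ ℕ) (i : Fin (r + 1)) : Lf r (Finsupp.weight (dv r n) s) i =
    (Kp s i : ℤ) - nu s i + 2 * nu s (i + 1) - nu s (i + 2) := by
  show ext0 _ _ - 2 * ext0 _ _ + ext0 _ _ = _
  rw [ext0_wt, ext0_wt, ext0_wt]
  have h1 : ∑ m ∈ range (r + 1), (Kp s m : ℤ) * ((m + 1 - i : ℕ) : ℤ) -
      2 * ∑ m ∈ range (r + 1), (Kp s m : ℤ) * ((m + 1 - (i + 1) : ℕ) : ℤ) +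
      ∑ m ∈ range (r + 1), (Kp s m : ℤ) * ((m + 1 - (i + 2) : ℕ) : ℤ) = (Kp s i : ℤ) := by
    rw [mul_sum, ← sum_sub_distrib, ← sum_add_distrib, sum_eq_single (i : ℕ)]
    · have e1 : (i : ℕ) + 1 - i = 1 := by omega
      have e2 : (i : ℕ) + 1 - (i + 1) = 0 := by omega
      have e3 : (i : ℕ) + 1 - (i + 2) = 0 := by omega
      rw [e1, e2, e3]
      simp
    · intro m _ hm
      have h2 : (((m + 1 - i : ℕ) : ℤ)) - 2 * ((m + 1 - (i + 1) : ℕ) : ℤ) +
          ((m + 1 - (i + 2) : ℕ) : ℤ) = 0 := by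
        omega
      linear_combination (Kp s m : ℤ) * h2
    · intro h
      exact absurd (mem_range.2 i.2) h
  linarith

lemma Lf_inj {A B : Fin (r + 1) → ℤ} (h : ∀ i, Lf r A i = Lf r B i) : A = B := by
  have h1 : ∀ k : ℕ, ext0 A (r + 1 - k) = ext0 B (r + 1 - k) ∧
      ext0 A (r + 2 - k) = ext0 B (r + 2 - k) := by
    intro k
    induction k with
    | zero =>
      unfold ext0
      rw [dif_neg (by omega), dif_neg (by omega), dif_neg (by omega), dif_neg (by omega)]
      exact ⟨rfl, rfl⟩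
    | succ k ih =>
      by_cases hk : k ≤ r
      · have e1 : r + 2 - (k + 1) = r + 1 - k := by omega
        refine ⟨?_, by rw [e1]; exact ih.1⟩
        have h2 := h ⟨r - k, by omega⟩
        change ext0 A (r - k) - 2 * ext0 A (r - k + 1) + ext0 A (r - k + 2) =
          ext0 B (r - k) - 2 * ext0 B (r - k + 1) + ext0 B (r - k + 2) at h2
        have e2 : r - k + 1 = r + 1 - k := by omega
        have e3 : r - k + 2 = r + 2 - k := by omega
        have e4 : r + 1 - (k + 1) = r - k := by omega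
        rw [e2, e3, ih.1, ih.2] at h2
        rw [e4]
        linarith
      · have e1 : r + 2 - (k + 1) = r + 1 - k := by omega
        have e2 : r + 1 - (k + 1) = r + 1 - k := by omega
        rw [e1, e2]
        exact ⟨ih.1, ih.1⟩
  funext j
  have h2 := (h1 (r + 1 - j)).1
  have e1 : r + 1 - (r + 1 - (j : ℕ)) = j := by omega
  rw [e1] at h2
  unfold ext0 at h2
  rw [dif_pos j.2, dif_pos j.2] at h2
  exact h2

lemma ext0_A2 (j : ℕ) (hj : j ≤ r + 2) : ext0 (A2 r) j = ((r : ℤ) + 1 - j) * ((r : ℤ) + 2 - j) := by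
  unfold ext0
  split_ifs with h
  · rfl
  · have h1 : j = r + 1 ∨ j = r + 2 := by omega
    rcases h1 with rfl | rfl <;> push_cast <;> ring

lemma Lf_A2 (i : Fin (r + 1)) : Lf r (A2 r) i = 2 := by
  show ext0 _ _ - 2 * ext0 _ _ + ext0 _ _ = _
  rw [ext0_A2 _ (by omega), ext0_A2 _ (by omega), ext0_A2 _ (by omega)]
  push_cast
  ring

/-- a discrete Poisson equation -/
lemma poisson (e : ℕ) (I : ℕ → Prop) (h0 : I 0) (he : I e) : ∃ b : ℕ → ℤ,
    (∀ i, I i → b i = 0) ∧ (∀ i, e ≤ i → b i = 0) ∧ (∀ i, 0 ≤ b i ∧ b i ≤ (e : ℤ) ^ 2) ∧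
    ∀ i, i + 1 ≤ e → ¬ I (i + 1) → 2 * b (i + 1) = b i + b (i + 2) + 2 := by
  classical
  obtain ⟨L, hL⟩ : ∃ L : ℕ → ℕ, ∀ x, L x = Nat.findGreatest I x := ⟨_, fun _ => rfl⟩
  obtain ⟨R, hR⟩ : ∃ R : ℕ → ℕ, ∀ x, R x = sInf {j | x ≤ j ∧ I j} := ⟨_, fun _ => rfl⟩
  have hL1 : ∀ x, L x ≤ x := fun x => by rw [hL]; exact Nat.findGreatest_le x
  have hL2 : ∀ x, I (L x) := fun x => by
    rw [hL]
    exact Nat.findGreatest_spec (Nat.zero_le x) h0
  have hL3 : ∀ x y, y ≤ x → I y → y ≤ L x := fun x y h hy => by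
    rw [hL]
    exact Nat.le_findGreatest h hy
  have hRm : ∀ x, x ≤ e → x ≤ R x ∧ I (R x) := fun x hx => by
    rw [hR]
    exact Nat.sInf_mem (s := {j | x ≤ j ∧ I j}) ⟨e, hx, he⟩
  have hR3 : ∀ x y, x ≤ y → I y → R x ≤ y := fun x y h hy => by
    rw [hR]
    exact Nat.sInf_le ⟨h, hy⟩
  obtain ⟨b, hb⟩ : ∃ b : ℕ → ℤ, ∀ x, b x = if x ≤ e then ((x : ℤ) - L x) * ((R x : ℤ) - x)
    else 0 := ⟨_, fun _ => rfl⟩
  have hI : ∀ i, I i → b i = 0 := by
    intro i hi
    rw [hb]
    split_ifs with h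
    · have h1 : L i = i := le_antisymm (hL1 i) (hL3 i i le_rfl hi)
      rw [h1]
      ring
    · rfl
  -- the formula
  have hf : ∀ x j j', j ≤ x → x ≤ j' → j' ≤ e → I j → I j' →
      (∀ y, j < y → y < j' → ¬ I y) → b x = ((x : ℤ) - j) * ((j' : ℤ) - x) := by
    intro x j j' h1 h2 h3 hj hj' hno
    by_cases hx : I x
    · rw [hI x hx]
      rcases eq_or_lt_of_le h1 with h | h
      · rw [h]; ring
      · rcases eq_or_lt_of_le h2 with h' | h'
        · rw [h']; ring
        · exact absurd hx (hno x h h')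
    · have h4 : L x = j := by
        apply le_antisymm _ (hL3 x j h1 hj)
        by_contra hlt
        have h5 := hL1 x
        have h6 : L x ≠ x := fun h => hx (h ▸ hL2 x)
        exact hno (L x) (by omega) (by omega) (hL2 x)
      have h5 : R x = j' := by
        apply le_antisymm (hR3 x j' h2 hj')
        by_contra hlt
        have h6 := (hRm x (h2.trans h3)).1
        have h7 : R x ≠ x := fun h => hx (h ▸ (hRm x (h2.trans h3)).2)
        exact hno (R x) (by omega) (by omega) (hRm x (h2.trans h3)).2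
      rw [hb, if_pos (h2.trans h3), h4, h5]
  refine ⟨b, hI, ?_, ?_, ?_⟩
  · intro i hi
    rcases eq_or_lt_of_le hi with h | h
    · exact hI i (h ▸ he)
    · rw [hb, if_neg (by omega)]
  · intro i
    rw [hb]
    split_ifs with h
    · have h1 := hL1 i
      have h2 := (hRm i h).1
      have h3 := hR3 i e h he
      have e1 : (0 : ℤ) ≤ (i : ℤ) - L i := by omega
      have e2 : (i : ℤ) - L i ≤ e := by omega
      have e3 : (0 : ℤ) ≤ (R i : ℤ) - i := by omega
      have e4 : (R i : ℤ) - i ≤ e := by omega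
      exact ⟨mul_nonneg e1 e3, by nlinarith⟩
    · exact ⟨le_rfl, by positivity⟩
  · intro i hi hni
    have h1 := hL1 (i + 1)
    have h2 : L (i + 1) ≠ i + 1 := fun h => hni (h ▸ hL2 (i + 1))
    have h3 := (hRm (i + 1) hi).1
    have h4 : R (i + 1) ≠ i + 1 := fun h => hni (h ▸ (hRm (i + 1) hi).2)
    have h5 := hR3 (i + 1) e hi he
    have hno : ∀ y, L (i + 1) < y → y < R (i + 1) → ¬ I y := by
      intro y hy1 hy2 hy
      rcases le_total y (i + 1) with h | h
      · exact absurd (hL3 (i + 1) y h hy) (by omega)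
      · exact absurd (hR3 (i + 1) y h hy) (by omega)
    have k1 := hf i _ _ (by omega) (by omega) h5 (hL2 _) (hRm (i + 1) hi).2 hno
    have k2 := hf (i + 1) _ _ (by omega) (by omega) h5 (hL2 _) (hRm (i + 1) hi).2 hno
    have k3 := hf (i + 2) _ _ (by omega) (by omega) h5 (hL2 _) (hRm (i + 1) hi).2 hno
    rw [k1, k2, k3]
    push_cast
    ring

/-- a part of given size -/
lemma exists_part {ι : Type} [Fintype ι] (f : ι → ℕ) (a : ℕ) (h : a ≤ ∑ i, f i) :
    ∃ t : ι → ℕ, (∀ i, t i ≤ f i) ∧ ∑ i, t i = a := by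
  classical
  induction a with
  | zero => exact ⟨fun _ => 0, fun i => Nat.zero_le _, by simp⟩
  | succ a ih =>
    obtain ⟨t, ht, hs⟩ := ih (by omega)
    have h1 : ∃ i, t i < f i := by
      by_contra hcon
      have h2 : ∀ i, f i ≤ t i := fun i => not_lt.1 fun hi => hcon ⟨i, hi⟩
      have h3 : ∑ i, f i ≤ ∑ i, t i := sum_le_sum fun i _ => h2 i
      omega
    obtain ⟨i, hi⟩ := h1
    refine ⟨fun j => t j + if j = i then 1 else 0, fun j => ?_, ?_⟩
    · by_cases hj : j = i
      · subst hj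
        simp only [if_true]
        omega
      · simp only [hj, if_false, add_zero]
        exact ht j
    · rw [sum_add_distrib, hs]
      simp

/-- a subfamily with given multiplicities -/
lemma exists_sub (s : Vr r n →₀ ℕ) (a b : ℕ → ℕ) (ha : ∀ i, i ≤ r → a i ≤ Kp s i)
    (hb : ∀ i, b i ≤ nu s i) : ∃ s' : Vr r n →₀ ℕ, s' ≤ s ∧ (∀ i, i ≤ r → Kp s' i = a i) ∧
    ∀ i, nu s' i = b i := by
  have h1 : ∀ i : Fin r, ∃ t : Fin (n + 1) → ℕ, (∀ v, t v ≤ s (Sum.inl (i, v))) ∧
      ∑ v, t v = a i := by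
    intro i
    apply exists_part
    have h2 := ha i i.2.le
    have h3 : Kp s i = ∑ v, s (Sum.inl (i, v)) := dif_pos i.2
    rwa [h3] at h2
  choose t ht1 ht2 using h1
  have hr : Kp s r = s (Sum.inr (Sum.inr ())) := by
    unfold Kp
    rw [dif_neg (lt_irrefl r), if_pos rfl]
  obtain ⟨s', hs'⟩ : ∃ s' : Vr r n →₀ ℕ, (∀ i v, s' (Sum.inl (i, v)) = t i v) ∧
      (∀ i : Fin r, s' (Sum.inr (Sum.inl i)) = b (i + 1)) ∧
      (∀ u, s' (Sum.inr (Sum.inr u)) = a r) := by
    refine ⟨Finsupp.equivFunOnFinite.symm (Sum.elim (fun z => t z.1 z.2)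
      (Sum.elim (fun i => b (i + 1)) (fun _ => a r))), fun i v => rfl, fun i => rfl, fun u => rfl⟩
  obtain ⟨q1, q2, q3⟩ := hs'
  refine ⟨s', ?_, ?_, ?_⟩
  · intro v
    rcases v with ⟨i, v⟩ | i | u
    · rw [q1]
      exact ht1 i v
    · rw [q2]
      have h2 := hb (i + 1)
      have h3 : nu s (i + 1) = s (Sum.inr (Sum.inl i)) := dif_pos i.2
      rwa [h3] at h2
    · rw [q3]
      have h2 := ha r le_rfl
      rwa [hr] at h2
  · intro i hi
    rcases eq_or_lt_of_le hi with h | h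
    · rw [h]
      unfold Kp
      rw [dif_neg (lt_irrefl r), if_pos rfl, q3]
    · unfold Kp
      rw [dif_pos h]
      rw [← ht2 ⟨i, h⟩]
      exact sum_congr rfl fun v _ => q1 _ v
  · intro i
    cases i with
    | zero =>
      have h2 := hb 0
      have h3 : nu s 0 = 0 := rfl
      have h4 : nu s' 0 = 0 := rfl
      omega
    | succ i =>
      by_cases h : i < r
      · have h3 : nu s' (i + 1) = s' (Sum.inr (Sum.inl ⟨i, h⟩)) := dif_pos h
        rw [h3, q2]
      · have h2 := hb (i + 1)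
        have h3 : nu s (i + 1) = 0 := dif_neg h
        have h4 : nu s' (i + 1) = 0 := dif_neg h
        omega

/-- the threshold -/
def Bt (r : ℕ) : ℕ := 2 + 4 * (r + 1) ^ 2

lemma split (s : Vr r n →₀ ℕ) (h : ∀ i, (Bt r : ℤ) ≤ Lf r (Finsupp.weight (dv r n) s) i) :
    ∃ s' : Vr r n →₀ ℕ, s' ≤ s ∧ Finsupp.weight (dv r n) s' = A2 r := by
  classical
  obtain ⟨I, hI⟩ : ∃ I : ℕ → Prop, ∀ x, I x ↔ (x = 0 ∨ x = r + 1 ∨
    2 + 2 * (r + 1) ^ 2 ≤ Kp s (x - 1)) := ⟨_, fun _ => Iff.rfl⟩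
  obtain ⟨b, hb1, hb2, hb3, hb4⟩ := poisson (r + 1) I ((hI 0).2 (Or.inl rfl))
    ((hI _).2 (Or.inr (Or.inl rfl)))
  have hnu : ∀ i, i ≤ r → (Bt r : ℤ) ≤ (Kp s i : ℤ) - nu s i + 2 * nu s (i + 1) - nu s (i + 2) := by
    intro i hi
    have h1 := h ⟨i, by omega⟩
    rw [Lf_wt] at h1
    exact h1
  have hBt : (Bt r : ℤ) = 2 + 4 * ((r : ℤ) + 1) ^ 2 := by
    unfold Bt
    push_cast
    ring
  obtain ⟨a, ha⟩ : ∃ a : ℕ → ℤ, ∀ i, a i = if I (i + 1) then 2 + b i + b (i + 2) else 0 :=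
    ⟨_, fun _ => rfl⟩
  have ha0 : ∀ i, 0 ≤ a i ∧ a i ≤ 2 + 2 * ((r : ℤ) + 1) ^ 2 := by
    intro i
    have h1 := hb3 i
    have h2 := hb3 (i + 2)
    push_cast at h1 h2
    rw [ha]
    split_ifs
    · exact ⟨by linarith [h1.1, h2.1], by linarith [h1.2, h2.2]⟩
    · exact ⟨le_rfl, by positivity⟩
  have ha1 : ∀ i, i ≤ r → a i ≤ Kp s i := by
    intro i hi
    by_cases h1 : I (i + 1)
    · rcases (hI _).1 h1 with h2 | h2 | h2
      · omega
      · have h3 : i = r := by omega
        subst h3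
        have h4 := hnu i le_rfl
        have h5 : nu s (i + 1) = 0 := dif_neg (lt_irrefl i)
        rw [h5] at h4
        have h6 := (ha0 i).2
        have h7 : (0 : ℤ) ≤ ((i : ℤ) + 1) ^ 2 := by positivity
        push_cast at h4
        linarith [Int.natCast_nonneg (nu s i), Int.natCast_nonneg (nu s (i + 2))]
      · have h3 : i + 1 - 1 = i := by omega
        rw [h3] at h2
        have h4 : (2 : ℤ) + 2 * ((r : ℤ) + 1) ^ 2 ≤ Kp s i := by exact_mod_cast h2
        exact (ha0 i).2.trans h4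
    · rw [ha, if_neg h1]
      exact Int.natCast_nonneg _
  have hb5 : ∀ i, b i ≤ nu s i := by
    intro i
    cases i with
    | zero =>
      rw [hb1 0 ((hI 0).2 (Or.inl rfl))]
      exact Int.natCast_nonneg _
    | succ i =>
      by_cases h1 : I (i + 1)
      · rw [hb1 _ h1]
        exact Int.natCast_nonneg _
      · by_cases h2 : r + 1 ≤ i + 1
        · rw [hb2 _ h2]
          exact Int.natCast_nonneg _
        · have h3 := hnu i (by omega)
          have h4 : Kp s i < 2 + 2 * (r + 1) ^ 2 := by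
            by_contra h5
            apply h1
            rw [hI]
            right; right
            exact not_lt.1 h5
          have h5 : (Kp s i : ℤ) < 2 + 2 * ((r : ℤ) + 1) ^ 2 := by exact_mod_cast h4
          have h6 := (hb3 (i + 1)).2
          push_cast at h6
          have h7 := Int.natCast_nonneg (nu s i)
          have h8 := Int.natCast_nonneg (nu s (i + 2))
          linarith
  obtain ⟨s', hs1, hs2, hs3⟩ := exists_sub s (fun i => (a i).toNat) (fun i => (b i).toNat)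
    (fun i hi => by
      have := ha1 i hi
      show (a i).toNat ≤ _
      omega)
    (fun i => by
      have := hb5 i
      show (b i).toNat ≤ _
      omega)
  refine ⟨s', hs1, Lf_inj fun i => ?_⟩
  rw [Lf_A2, Lf_wt, hs2 i (by omega), hs3, hs3, hs3]
  have e1 : ((a i).toNat : ℤ) = a i := Int.toNat_of_nonneg (ha0 i).1
  have e2 : ∀ j, ((b j).toNat : ℤ) = b j := fun j => Int.toNat_of_nonneg (hb3 j).1
  rw [e1, e2, e2, e2, ha]
  split_ifs with h1
  · rw [hb1 _ h1]
    ring
  · have h2 := hb4 i (by omega) h1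
    linarith

lemma split_many (c : ℕ) (s : Vr r n →₀ ℕ)
    (h : ∀ i, (Bt r : ℤ) + 2 * c ≤ Lf r (Finsupp.weight (dv r n) s) i) :
    ∃ s' : Vr r n →₀ ℕ, s' ≤ s ∧ Finsupp.weight (dv r n) s' = c • A2 r := by
  induction c generalizing s with
  | zero => exact ⟨0, zero_le, by simp⟩
  | succ c ih =>
    obtain ⟨s1, h1, h2⟩ := split s fun i => by
      have := h i
      push_cast at this
      linarith [Int.natCast_nonneg c]
    have h3 : s - s1 + s1 = s := tsub_add_cancel_of_le h1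
    have h4 : Finsupp.weight (dv r n) s = Finsupp.weight (dv r n) (s - s1) + A2 r := by
      rw [← h2, ← map_add, h3]
    obtain ⟨s2, h5, h6⟩ := ih (s - s1) fun i => by
      have h7 := h i
      rw [h4, map_add, Pi.add_apply, Lf_A2] at h7
      push_cast at h7
      linarith
    refine ⟨s2 + s1, ?_, ?_⟩
    · calc s2 + s1 ≤ s - s1 + s1 := by gcongr
        _ = s := h3
    · rw [map_add, h6, h2, succ_nsmul]

/-- a positive functional -/
lemma fnt : Fnt (dv r n) := by
  intro A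
  obtain ⟨Lam, hLam⟩ : ∃ Lam : (Fin (r + 1) → ℤ) → ℤ, ∀ A, Lam A =
    ((r : ℤ) + 1) * A 0 - ∑ j : Fin r, A j.succ := ⟨_, fun _ => rfl⟩
  have h1 : ∀ v : Vr r n, 1 ≤ Lam (dv r n v) := by
    intro v
    rw [hLam]
    rcases v with ⟨i, v⟩ | i | u
    · have h2 : ∑ j : Fin r, dv r n (Sum.inl (i, v)) j.succ ≤ ∑ j : Fin r, ((i : ℕ) : ℤ) := by
        apply sum_le_sum
        intro j _
        simp only [dv, Fin.val_succ]
        omega
      rw [sum_const, card_univ, Fintype.card_fin, nsmul_eq_mul] at h2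
      have h3 : dv r n (Sum.inl (i, v)) 0 = (i : ℕ) + 1 := by
        simp [dv]
      rw [h3]
      have h4 : (0 : ℤ) ≤ r := Int.natCast_nonneg r
      have h5 : (0 : ℤ) ≤ (i : ℕ) := Int.natCast_nonneg _
      nlinarith
    · have h2 : dv r n (Sum.inr (Sum.inl i)) 0 = 0 := by
        simp [dv]
      have h3 : ∑ j : Fin r, dv r n (Sum.inr (Sum.inl i)) j.succ = -1 := by
        rw [sum_eq_single i]
        · simp [dv]
        · intro j _ hj
          have h4 : ¬ (j : ℕ) = i := fun h => hj (Fin.ext h)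
          simp [dv, h4]
        · simp
      rw [h2, h3]
      norm_num
    · have h2 : ∑ j : Fin r, dv r n (Sum.inr (Sum.inr u)) j.succ ≤ ∑ j : Fin r, (r : ℤ) := by
        apply sum_le_sum
        intro j _
        simp only [dv, Fin.val_succ]
        omega
      rw [sum_const, card_univ, Fintype.card_fin, nsmul_eq_mul] at h2
      have h3 : dv r n (Sum.inr (Sum.inr u)) 0 = (r : ℤ) + 1 := by
        simp [dv]
      rw [h3]
      have h4 : (0 : ℤ) ≤ r := Int.natCast_nonneg r
      nlinarith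
  have h2 : ∀ s : Vr r n →₀ ℕ, Lam (Finsupp.weight (dv r n) s) =
      ∑ v, (s v : ℤ) * Lam (dv r n v) := by
    intro s
    simp only [hLam]
    simp only [wt_apply]
    rw [sum_comm, mul_sum, ← sum_sub_distrib]
    apply sum_congr rfl
    intro v _
    rw [← mul_sum]
    ring
  refine (Set.finite_Iic (Finsupp.equivFunOnFinite.symm fun _ : Vr r n => (Lam A).toNat)).subset ?_
  intro s hs v
  change Finsupp.weight (dv r n) s = A at hs
  show s v ≤ (Lam A).toNat
  have h3 : (s v : ℤ) ≤ Lam A := by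
    rw [← hs, h2]
    calc (s v : ℤ) ≤ (s v : ℤ) * Lam (dv r n v) :=
          le_mul_of_one_le_right (Int.natCast_nonneg _) (h1 v)
      _ ≤ ∑ v, (s v : ℤ) * Lam (dv r n v) :=
          single_le_sum (f := fun v => (s v : ℤ) * Lam (dv r n v))
            (fun v _ => mul_nonneg (Int.natCast_nonneg _) (by linarith [h1 v])) (mem_univ v)
  omega

theorem pf_GRD : T_GRD := by
  intro r n
  have hLf : ∀ c : ℕ, ∀ i, Lf r (c • A2 r) i = 2 * c := by
    intro c i
    rw [map_nsmul, Pi.smul_apply, Lf_A2, nsmul_eq_mul]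
    ring
  have hB : 1 ≤ Bt r := by
    unfold Bt
    omega
  have hB' : (1 : ℤ) ≤ Bt r := by exact_mod_cast hB
  refine ⟨Bt r, fnt, ?_, ?_, ?_, ?_⟩
  · intro i
    rw [hLf]
    linarith
  · exact ⟨Bt r + 2 * Bt r, fun s hs => split_many (Bt r) s hs⟩
  · intro j hj s hs
    apply split_many
    intro i
    rw [hs]
    have h1 : Lf r ((j + 1) • Bt r • A2 r) i = ((j : ℤ) + 1) * (2 * Bt r) := by
      rw [map_nsmul, Pi.smul_apply, hLf, nsmul_eq_mul]
      push_cast
      ring
    rw [h1]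
    have h2 : (1 : ℤ) ≤ j := by exact_mod_cast hj
    nlinarith
  · intro s hs i
    have h1 := Lf_wt s i
    rw [hs, hLf] at h1
    rcases Nat.lt_or_ge (i : ℕ) r with hi | hi
    · have h2 : Kp s i ≠ 0 ∨ nu s (i + 1) ≠ 0 := by
        by_contra hcon
        rw [not_or, not_not, not_not] at hcon
        rw [hcon.1, hcon.2] at h1
        have h7 := Int.natCast_nonneg (nu s i)
        have h8 := Int.natCast_nonneg (nu s (i + 2))
        push_cast at h1
        linarith
      rcases h2 with h2 | h2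
      · have h3 : Kp s i = ∑ v, s (Sum.inl (⟨i, hi⟩, v)) := dif_pos hi
        rw [h3] at h2
        obtain ⟨v, -, hv⟩ := exists_ne_zero_of_sum_ne_zero h2
        refine ⟨Sum.inl (⟨i, hi⟩, v), ?_, hv⟩
        unfold Bk
        rw [mem_filter]
        exact ⟨mem_univ _, rfl⟩
      · have h3 : nu s (i + 1) = s (Sum.inr (Sum.inl ⟨i, hi⟩)) := dif_pos hi
        rw [h3] at h2
        refine ⟨Sum.inr (Sum.inl ⟨i, hi⟩), ?_, h2⟩
        unfold Bk
        rw [mem_filter]
        exact ⟨mem_univ _, rfl⟩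
    · have hir : (i : ℕ) = r := by omega
      have h2 : nu s (i + 1) = 0 := dif_neg (by omega)
      have h3 : Kp s i = s (Sum.inr (Sum.inr ())) := by
        unfold Kp
        rw [dif_neg (by omega), if_pos hir]
      rw [h2, h3] at h1
      refine ⟨Sum.inr (Sum.inr ()), ?_, ?_⟩
      · unfold Bk
        rw [mem_filter]
        exact ⟨mem_univ _, hir.symm⟩
      · intro h4
        rw [h4] at h1
        have h7 := Int.natCast_nonneg (nu s i)
        have h8 := Int.natCast_nonneg (nu s (i + 2))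
        push_cast at h1
        linarith

end Pool.Agent.H79.IX
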