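import Pool.Agent.H39.IX.Targets
import Pool.Agent.H80.G2.Basic
import Pool.Agent.H72.G2.CFC

/-! Row OPN of `ixm_modules`: the operator norm from the 2-norm. -/

set_option autoImplicit false

open scoped InnerProductSpace Topology
open Filter Finset Pool.Agent.H80.G2 Pool.Agent.H39.IX

namespace Pool.Agent.H79.IX

theorem pf_OPN : T_OPN := by
  intro H _ _ _ N ξ hN x hx C hC
  by_contra hcon
  push Not at hcon
  have hC0 : 0 ≤ C := by
    have h1 := hC 1 (one_mem N)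
    rw [mul_one, n2_one hN.one, mul_one] at h1
    exact (n2_nonneg ξ x).trans h1
  obtain ⟨t, ht1, ht2⟩ : ∃ t, C ^ 2 < t ∧ t < ‖x‖ ^ 2 :=
    exists_between (pow_lt_pow_left₀ hcon hC0 two_ne_zero)
  have hxne : x ≠ 0 := by
    rintro rfl
    rw [norm_zero] at hcon
    linarith
  haveI : Nontrivial (H →L[ℂ] H) := ⟨⟨x, 0, hxne⟩⟩
  obtain ⟨h, hh⟩ : ∃ h : H →L[ℂ] H, h = star x * x := ⟨_, rfl⟩
  have hh0 : 0 ≤ h := by
    rw [hh]
    exact star_mul_self_nonneg x
  have hhs : star h = h := by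
    rw [hh, star_mul, star_star]
  have hsa : IsSelfAdjoint h := hhs
  have hhn : ‖h‖ = ‖x‖ ^ 2 := by
    rw [hh, CStarRing.norm_star_mul_self, sq]
  have hhN : h ∈ N := by
    rw [hh]
    exact mul_mem (star_mem hx) hx
  obtain ⟨f, hf⟩ : ∃ f : ℝ → ℝ, f = fun u => max (u - t) 0 := ⟨_, rfl⟩
  have hfc : Continuous f := by
    rw [hf]
    fun_prop
  obtain ⟨b, hb⟩ : ∃ b : H →L[ℂ] H, b = cfc f h := ⟨_, rfl⟩
  have hbN : b ∈ N := by
    rw [hb]
    exact Pool.Agent.H72.G2.pf_CFC H N h hhN hhs f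
  have hb0 : 0 ≤ b := by
    rw [hb]
    refine cfc_nonneg fun u _ => ?_
    rw [hf]
    exact le_max_right _ _
  have hbne : b ≠ 0 := by
    intro hb1
    have h1 : cfc f h = cfc (fun _ : ℝ => (0 : ℝ)) h := by
      rw [← hb, hb1, cfc_const_zero]
    rw [cfc_eq_cfc_iff_eqOn (ha := hsa) (hf := hfc.continuousOn)
      (hg := continuous_const.continuousOn)] at h1
    have h2 : f ‖h‖ = 0 := h1 (CStarAlgebra.norm_mem_spectrum_of_nonneg hh0)
    rw [hf, hhn] at h2
    have h3 := le_max_left (‖x‖ ^ 2 - t) 0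
    have h4 : max (‖x‖ ^ 2 - t) 0 = 0 := h2
    linarith
  have hmul : h * b = t • b + b * b := by
    have e1 : h * b = cfc (fun u => u * f u) h := by
      rw [cfc_mul (fun u : ℝ => u) f h continuous_id.continuousOn hfc.continuousOn,
        cfc_id' ℝ h hsa, hb]
    have e2 : b * b = cfc (fun u => f u * f u) h := by
      rw [cfc_mul f f h hfc.continuousOn hfc.continuousOn, hb]
    have e3 : t • b = cfc (fun u => t * f u) h := by
      rw [cfc_const_mul t f h hfc.continuousOn, hb]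
    rw [e1, e2, e3, ← cfc_add h (fun u => t * f u) (fun u => f u * f u)
      (continuous_const.mul hfc).continuousOn (hfc.mul hfc).continuousOn]
    congr 1
    funext u
    rw [hf]
    show u * max (u - t) 0 = t * max (u - t) 0 + max (u - t) 0 * max (u - t) 0
    rcases le_total (u - t) 0 with h1 | h1
    · rw [max_eq_right h1]
      ring
    · rw [max_eq_left h1]
      ring
  have hpos := (ContinuousLinearMap.nonneg_iff_isPositive b).1 hb0
  have hpt : ∀ v : H, t * ‖b v‖ ^ 2 ≤ ‖x (b v)‖ ^ 2 := by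
    intro v
    have h1 : ⟪x (b v), x (b v)⟫_ℂ = ⟪b v, h (b v)⟫_ℂ := by
      rw [hh]
      show _ = ⟪b v, (star x) (x (b v))⟫_ℂ
      rw [ContinuousLinearMap.star_eq_adjoint, ContinuousLinearMap.adjoint_inner_right]
    have h2 : h (b v) = (t : ℂ) • b v + b (b v) := by
      have h3 : (h * b) v = (t • b + b * b) v := by rw [hmul]
      exact h3
    have h3 : 0 ≤ RCLike.re ⟪b v, b (b v)⟫_ℂ := hpos.re_inner_nonneg_right (b v)
    have h4 : ‖x (b v)‖ ^ 2 = RCLike.re ⟪x (b v), x (b v)⟫_ℂ := norm_sq_eq_re_inner _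
    rw [h4, h1, h2, inner_add_right, inner_smul_right, map_add, inner_self_eq_norm_sq_to_K]
    have h5 : RCLike.re ((t : ℂ) * ((‖b v‖ : ℂ)) ^ 2) = t * ‖b v‖ ^ 2 := by
      have h6 : (t : ℂ) * ((‖b v‖ : ℂ)) ^ 2 = ((t * ‖b v‖ ^ 2 : ℝ) : ℂ) := by
        push_cast
        ring
      rw [h6]
      exact Complex.ofReal_re _
    have h6 : RCLike.re ((t : ℂ) * ((RCLike.ofReal ‖b v‖ : ℂ)) ^ 2) = t * ‖b v‖ ^ 2 := h5
    rw [h6]
    linarith
  have hs : ∀ z : H →L[ℂ] H, Summable fun n => ‖z (ξ n)‖ ^ 2 := by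
    intro z
    refine Summable.of_nonneg_of_le (fun n => by positivity) (fun n => ?_)
      (hN.sum.mul_left (‖z‖ ^ 2))
    rw [← mul_pow]
    exact pow_le_pow_left₀ (norm_nonneg _) (z.le_opNorm _) 2
  have hn2 : ∀ z : H →L[ℂ] H, n2 ξ z ^ 2 = ∑' n, ‖z (ξ n)‖ ^ 2 := fun z =>
    Real.sq_sqrt (tsum_nonneg fun n => by positivity)
  have h1 : t * n2 ξ b ^ 2 ≤ n2 ξ (x * b) ^ 2 := by
    rw [hn2, hn2, ← tsum_mul_left]
    exact Summable.tsum_le_tsum (fun n => hpt (ξ n)) ((hs b).mul_left t) (hs (x * b))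
  have h2 : n2 ξ (x * b) ^ 2 ≤ C ^ 2 * n2 ξ b ^ 2 := by
    rw [← mul_pow]
    exact pow_le_pow_left₀ (n2_nonneg _ _) (hC b hbN) 2
  have h3 : n2 ξ b = 0 := by
    by_contra h4
    have h5 : 0 < n2 ξ b ^ 2 := by
      have := n2_nonneg ξ b
      positivity
    nlinarith
  exact hbne (eq_zero_of_n2 hN hbN h3)

end Pool.Agent.H79.IX
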