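import Pool.Agent.H39.IX.Targets

/-! Row RMO of `ixm_modules`: right multiplications. -/

set_option autoImplicit false

open scoped InnerProductSpace Topology
open Filter Finset Pool.Agent.H80.G2 Pool.Agent.H39.IX

namespace Pool.Agent.H79.IX

theorem pf_RMO : T_RMO := by
  intro H _ _ _ P ξ h b hb
  obtain ⟨S, hS⟩ : ∃ S : Submodule ℂ (lp (fun _ : ℕ => H) 2),
      (S : Set (lp (fun _ : ℕ => H) 2)) = {κ | ∃ a ∈ P, κ = emb h.one.summable a} :=
    ⟨{ carrier := {κ | ∃ a ∈ P, κ = emb h.one.summable a}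
       add_mem' := by
        rintro _ _ ⟨a, ha, rfl⟩ ⟨a', ha', rfl⟩
        exact ⟨a + a', add_mem ha ha', (map_add _ _ _).symm⟩
       zero_mem' := ⟨0, zero_mem P, (map_zero _).symm⟩
       smul_mem' := by
        rintro c _ ⟨a, ha, rfl⟩
        exact ⟨c • a, smul_mem' P c ha, (map_smul _ _ _).symm⟩ }, rfl⟩
  have hSm : ∀ κ, κ ∈ S ↔ ∃ a ∈ P, κ = emb h.one.summable a := by
    intro κ
    rw [← SetLike.mem_coe, hS]
    rfl
  have hV : ∀ a ∈ P, emb h.one.summable a ∈ S.topologicalClosure := fun a ha =>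
    S.le_topologicalClosure ((hSm _).2 ⟨a, ha, rfl⟩)
  let e : P.toStarSubalgebra →ₗ[ℂ] S.topologicalClosure :=
    { toFun := fun a => ⟨emb h.one.summable a.1, hV a.1 a.2⟩
      map_add' := fun a a' => Subtype.ext (map_add _ _ _)
      map_smul' := fun c a => Subtype.ext (map_smul _ _ _) }
  let f : P.toStarSubalgebra →ₗ[ℂ] S.topologicalClosure :=
    { toFun := fun a => ⟨emb h.one.summable (a.1 * b), hV _ (mul_mem a.2 hb)⟩
      map_add' := fun a a' => Subtype.ext (by
        show emb h.one.summable ((a.1 + a'.1) * b) = _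
        rw [add_mul, map_add]
        rfl)
      map_smul' := fun c a => Subtype.ext (by
        show emb h.one.summable ((c • a.1) * b) = _
        rw [smul_mul_assoc, map_smul]
        rfl) }
  have hd : DenseRange e := by
    refine Subtype.dense_iff.2 fun κ hκ => ?_
    have h1 : κ ∈ closure (S : Set (lp (fun _ : ℕ => H) 2)) := hκ
    refine closure_mono ?_ h1
    intro η hη
    obtain ⟨a, ha, rfl⟩ := (hSm η).1 hη
    exact ⟨e ⟨a, ha⟩, ⟨⟨a, ha⟩, rfl⟩, rfl⟩
  have hn : ∀ a, ‖f a‖ ≤ ‖b‖ * ‖e a‖ := by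
    intro a
    show ‖emb h.one.summable (a.1 * b)‖ ≤ ‖b‖ * ‖emb h.one.summable a.1‖
    rw [norm_emb, norm_emb, mul_comm]
    exact n2_mul_le' h a.2 hb
  refine ⟨S.topologicalClosure.subtypeL ∘L (f.extendOfNorm e) ∘L
    S.topologicalClosure.orthogonalProjection, ?_, ?_, ?_⟩
  · intro a ha
    have h1 : S.topologicalClosure.orthogonalProjection (emb h.one.summable a) = e ⟨a, ha⟩ :=
      Submodule.orthogonalProjection_mem_subspace_eq_self (e ⟨a, ha⟩)
    show ((f.extendOfNorm e) (S.topologicalClosure.orthogonalProjection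
      (emb h.one.summable a)) : lp (fun _ : ℕ => H) 2) = _
    rw [h1, LinearMap.extendOfNorm_eq hd ⟨_, hn⟩]
    rfl
  · intro κ hκ
    have h1 : κ ∈ S.topologicalClosureᗮ := by
      rw [Submodule.mem_orthogonal]
      intro η hη
      have h2 : IsClosed {η : lp (fun _ : ℕ => H) 2 | ⟪η, κ⟫_ℂ = 0} :=
        isClosed_eq (continuous_id.inner continuous_const) continuous_const
      have h3 : closure (S : Set (lp (fun _ : ℕ => H) 2)) ⊆ {η | ⟪η, κ⟫_ℂ = 0} := by
        refine closure_minimal ?_ h2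
        intro ζ hζ
        obtain ⟨a, ha, rfl⟩ := (hSm ζ).1 hζ
        exact hκ a ha
      exact h3 hη
    have h2 : S.topologicalClosure.orthogonalProjection κ = 0 :=
      Submodule.orthogonalProjection_eq_zero_iff.2 h1
    show ((f.extendOfNorm e) (S.topologicalClosure.orthogonalProjection κ) :
      lp (fun _ : ℕ => H) 2) = 0
    rw [h2, map_zero]
    rfl
  · intro κ
    have h1 := ((f.extendOfNorm e) (S.topologicalClosure.orthogonalProjection κ)).2
    have h2 : (((f.extendOfNorm e) (S.topologicalClosure.orthogonalProjection κ)) :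
      lp (fun _ : ℕ => H) 2) ∈ closure (S : Set (lp (fun _ : ℕ => H) 2)) := h1
    rw [hS] at h2
    exact h2

end Pool.Agent.H79.IX
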