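import Pool.Agent.H39.IX.Targets2
import Pool.Agent.H80.G2.Basic

/-! Row WKC of `ixm_modules`: weak compactness of the unit ball. -/

set_option autoImplicit false

open scoped InnerProductSpace Topology
open Filter Finset Pool.Agent.H80.G2 Pool.Agent.H39.IX

namespace Pool.Agent.H79.IX

theorem pf_WKC (hSTR : Pool.Agent.H80.G2.T_STR) (hWLB : T_WLB) : T_WKC := by
  intro H _ _ _ N P ξ hN x hx c h
  have h1 : ∀ k : ℕ, ∃ s ∈ N, ‖s‖ ≤ 1 ∧ n2 ξ (x - s) < 1 / ((k : ℝ) + 1) ∧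
      ∃ a ∈ P, ‖s - a‖ ≤ c := fun k => h _ (by positivity)
  choose s hsN hs1 hs2 a haP hsa using h1
  have hc0 : 0 ≤ c := (norm_nonneg _).trans (hsa 0)
  have ha1 : ∀ k, ‖a k‖ ≤ 1 + c := by
    intro k
    have h2 : a k = s k - (s k - a k) := by abel
    rw [h2]
    exact (norm_sub_le _ _).trans (add_le_add (hs1 k) (hsa k))
  have hlim : Tendsto (fun k => n2 ξ (s k - x)) atTop (𝓝 0) := by
    refine squeeze_zero (fun k => n2_nonneg _ _) (fun k => ?_)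
      tendsto_one_div_add_atTop_nhds_zero_nat
    rw [n2_sub_comm]
    exact (hs2 k).le
  have hstr := hSTR H N ξ hN s 1 x hsN hs1 hx hlim
  have hU : ((hyperfilter ℕ : Ultrafilter ℕ) : Filter ℕ) ≤ atTop := by
    rw [← Nat.cofinite_eq_atTop]
    exact hyperfilter_le_cofinite
  obtain ⟨z, -, hz2, hz3, -⟩ := hWLB H (hyperfilter ℕ) a (1 + c) ha1
  obtain ⟨z', hz1', hz2', -, -⟩ := hWLB H (hyperfilter ℕ) (fun k => s k - a k) c hsa
  refine ⟨z, hz3 P haP, ?_⟩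
  have h3 : x - z = z' := by
    refine ContinuousLinearMap.ext fun ζ => ?_
    refine ext_inner_left ℂ fun η => ?_
    have h4 := hz2' η ζ
    have h5 : Tendsto (fun k => ⟪η, s k ζ⟫_ℂ - ⟪η, a k ζ⟫_ℂ)
        ((hyperfilter ℕ : Ultrafilter ℕ) : Filter ℕ) (𝓝 (⟪η, x ζ⟫_ℂ - ⟪η, z ζ⟫_ℂ)) := by
      refine Tendsto.sub ?_ (hz2 η ζ)
      exact (Filter.Tendsto.inner tendsto_const_nhds (hstr ζ)).mono_left hU
    have h6 : (fun k => ⟪η, s k ζ⟫_ℂ - ⟪η, a k ζ⟫_ℂ) = fun k => ⟪η, (s k - a k) ζ⟫_ℂ := by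
      funext k
      rw [← inner_sub_right]
      rfl
    rw [h6] at h5
    have h7 := tendsto_nhds_unique h5 h4
    rw [← h7, ← inner_sub_right]
    rfl
  rw [h3]
  exact hz1'

end Pool.Agent.H79.IX
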